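import Pool.Agent.Q68.L2.SN2
import Pool.Agent.Q255.L2.Alm

set_option autoImplicit false

/-!
# Project L2Q (helper255), job SNQ: sup norms of quadratic twists (adapted from `Pool.Agent.Q68.L2.SN2`)
-/

namespace Pool.Agent.Q275.L2

open Filter Topology MeasureTheory Finset
open Pool.Agent.Q255.IC Pool.Agent.Q255.IR Pool.Agent.Q255.EP Pool.Agent.Q255.L2 Pool.Agent.Q65.L2
open Pool.Agent.Q68.L2 (ampW tm_bdW coef_pt norm_fam)

/-- one member -/
theorem one_member' (hK : S_KODE) {m : ℕ} {θ T C y₀ y : ℝ} {a : ℕ → ℝ} (b : Bool) (hθ : 0 ≤ θ) (hT : 1 ≤ T)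
    (hy₀ : 0 < y₀) (hy : y₀ ≤ y) (hm : 1 ≤ m * y₀) {K : ℕ} (hKθ : θ + 2 ≤ K)
    (h : ∀ n : ℕ, 1 ≤ n → |a n| ≤ C * (n : ℝ) ^ θ * ((n : ℝ) * T)) (x : ℝ) (f : ℕ → ℝ) (hf : ∀ n, |f n| ≤ 1) :
    |∑' n : ℕ, tm T a b x y (n + 1) * f (n + 1)| ≤
      T ^ θ * |∑' n : ℕ, tm T (trT m θ T a) b x y (n + 1) * f (n + 1)| +
        ∑' n : ℕ, |C| * y₀ * (((n + 1 : ℕ) : ℝ) ^ K * Real.exp (-(Real.pi * y₀) * ((n + 1 : ℕ) : ℝ))) := by
  have hpi := Real.pi_pos
  have hT0 : 0 < T := by linarith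
  set hh : ℕ → ℝ := fun n => |C| * y₀ * ((n : ℝ) ^ K * Real.exp (-(Real.pi * y₀) * n)) with hhh
  have hhs0 : Summable hh :=
    (Real.summable_pow_mul_exp_neg_nat_mul K (by positivity : 0 < Real.pi * y₀)).mul_left _
  have hhs : Summable fun n : ℕ => hh (n + 1) := (summable_nat_add_iff 1).2 hhs0
  -- the remainder
  set g : ℕ → ℝ := fun n => tm T a b x y (n + 1) * f (n + 1) with hg
  set g1 : ℕ → ℝ := fun n => tm T (trT m θ T a) b x y (n + 1) * f (n + 1) with hg1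
  have hTT : T ^ θ * T ^ (-θ) = 1 := by
    rw [← Real.rpow_add hT0, add_neg_cancel, Real.rpow_zero]
  have hin : ∀ n : ℕ, ((n + 1 : ℕ) : ℝ) ≤ m * T → T ^ θ * g1 n = g n := by
    intro n hn
    rw [hg, hg1]
    show T ^ θ * (tm T (trT m θ T a) b x y (n + 1) * f (n + 1)) = tm T a b x y (n + 1) * f (n + 1)
    unfold tm trT
    rw [if_pos hn]
    linear_combination (Real.exp (Real.pi * T / 2) * √y * (a (n + 1) *
      KB T (2 * Real.pi * ((n + 1 : ℕ) : ℝ) * y) * Real.cos (2 * Real.pi * ((n + 1 : ℕ) : ℝ) * x - sh b)) *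
        f (n + 1)) * hTT
  have hout : ∀ n : ℕ, m * T < ((n + 1 : ℕ) : ℝ) → g1 n = 0 := by
    intro n hn
    rw [hg1]
    show tm T (trT m θ T a) b x y (n + 1) * f (n + 1) = 0
    unfold tm trT
    rw [if_neg (not_le.2 hn)]
    ring
  have hs1 : Summable g1 := by
    refine summable_of_ne_finset_zero (s := Finset.range (⌈(m : ℝ) * T⌉₊ + 1)) fun n hn => hout n ?_
    rw [Finset.mem_range, not_lt] at hn
    have h1 : ((⌈(m : ℝ) * T⌉₊ + 1 : ℕ) : ℝ) ≤ n := by exact_mod_cast hn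
    have h2 := Nat.le_ceil ((m : ℝ) * T)
    push_cast at h1 ⊢
    linarith
  have hrb : ∀ n, |g n - T ^ θ * g1 n| ≤ hh (n + 1) := by
    intro n
    rcases le_or_gt ((n + 1 : ℕ) : ℝ) (m * T) with hn | hn
    · rw [hin n hn, sub_self, abs_zero]
      rw [hhh]
      positivity
    · rw [hout n hn, mul_zero, sub_zero, hg]
      show |tm T a b x y (n + 1) * f (n + 1)| ≤ _
      rw [abs_mul]
      refine (mul_le_of_le_one_right (abs_nonneg _) (hf _)).trans ?_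
      exact far hK b hθ hT hy₀ hy hm hKθ (Nat.le_add_left 1 n) (h (n + 1) (Nat.le_add_left 1 n)) hn
  have hs2 : Summable fun n => |g n - T ^ θ * g1 n| :=
    Summable.of_nonneg_of_le (fun _ => abs_nonneg _) hrb hhs
  have hs3 : Summable fun n => g n - T ^ θ * g1 n := hs2.of_abs
  have hs4 : Summable fun n => T ^ θ * g1 n := hs1.mul_left _
  have e1 : ∑' n, g n = T ^ θ * ∑' n, g1 n + ∑' n, (g n - T ^ θ * g1 n) := by
    rw [← tsum_mul_left, ← hs4.tsum_add hs3]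
    exact tsum_congr fun n => by ring
  rw [e1]
  refine (abs_add_le _ _).trans (add_le_add (le_of_eq ?_) ?_)
  · rw [abs_mul, abs_of_pos (Real.rpow_pos_of_pos hT0 _)]
  · have h5 : |∑' n, (g n - T ^ θ * g1 n)| ≤ ∑' n, |g n - T ^ θ * g1 n| := by
      have := norm_tsum_le_tsum_norm (f := fun n => g n - T ^ θ * g1 n) (by simpa using hs2)
      simpa using this
    exact h5.trans (hs2.tsum_le_tsum hrb hhs)

theorem snq (h : S_QE) (h1 : S_KODE) (h2 : S_KBB) (h3 : S_KW) (h4 : S_KN2) : S_SNQ := by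
  classical
  intro ι T a A hFam ha y₀ y₁ ε q₀ hy₀ hy01 hε
  obtain ⟨hT, hfin⟩ := hFam
  have hpi := Real.pi_pos
  set m : ℕ := ⌈1 / y₀⌉₊ with hm
  have hm1 : 1 ≤ (m : ℝ) * y₀ := by
    have := Nat.le_ceil (1 / y₀)
    rw [← hm, div_le_iff₀ hy₀] at this
    exact this
  have hm0 : 1 ≤ m := Nat.one_le_iff_ne_zero.2 fun h0 => by
    rw [h0] at hm1
    simp only [Nat.cast_zero, zero_mul] at hm1
    linarith
  have hmR : (1 : ℝ) ≤ m := by exact_mod_cast hm0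
  have hε2 : 0 < ε / 2 := by positivity
  have hε8 : 0 < ε / 8 := by positivity
  obtain ⟨r, hr⟩ : ∃ r : ℕ, m ≤ 2 ^ r := ⟨m, Nat.lt_two_pow_self.le⟩
  let W : ℕ → Finset (ℕ → ℝ) := fun J =>
    Finset.image (fun q : ι × ℕ × ℕ × Bool =>
      trw (2 ^ J) (tm (T q.1) (trT m 0 (T q.1) (a q.1)) q.2.2.2 ((q.2.1 : ℝ) / 32 ^ J) ((q.2.2.1 : ℝ) / 32 ^ J)))
      (((hfin (2 ^ J) (one_le_pow₀ (by norm_num))).1.toFinset) ×ˢ (range (32 ^ J + 1) ×ˢ
        (range ((⌈y₁⌉₊ + 1) * 32 ^ J + 1) ×ˢ (univ : Finset Bool))))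
  obtain ⟨A', hA'⟩ := card_bd A ⌈y₁⌉₊
  have hQ := h A' (ε / 2) W hε2 (by
    intro J
    have hN := (hfin (2 ^ J) (one_le_pow₀ (by norm_num))).2
    rw [Set.ncard_eq_toFinset_card _ (hfin (2 ^ J) (one_le_pow₀ (by norm_num))).1] at hN
    refine le_trans ?_ (hA' J _ hN)
    refine Nat.cast_le.2 (Finset.card_image_le.trans (le_of_eq ?_))
    rw [card_product, card_product, card_product, card_range, card_range, card_univ,
      Fintype.card_bool])
  obtain ⟨CB, hCB0, hamp⟩ := amp h2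
  obtain ⟨CW, hCW0, hampW⟩ := ampW h3
  obtain ⟨C₁, hC₁0, hC₁⟩ := coef_pt hT ha
  obtain ⟨CN, hCN0, hKN⟩ := norm_fam h4 hT ha (L := √(y₁ + 1) * CW) (m := m) (ε := ε / 8) (y₀ := y₀)
    (Y := y₁ + 1) (by positivity) hmR hε8 hy₀ (by linarith)
  set K₂ := CB * (1 / √y₀ + √(y₁ + 1) / y₀ + √(y₁ + 1) * (2 * Real.pi)) with hK₂
  have hK₂0 : 0 ≤ K₂ := by positivity
  set C₃ := (2 ^ (q₀ + r)) ^ (ε / 2) * √CN with hC₃
  have hC₃0 : 0 ≤ C₃ := by positivity
  -- the truncated coefficients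
  have htr : ∀ i n, trT m 0 (T i) (a i) n = if (n : ℝ) ≤ m * T i then a i n else 0 := by
    intro i n
    unfold trT
    rw [neg_zero, Real.rpow_zero, mul_one]
  have htr1 : ∀ i n, |trT m 0 (T i) (a i) n| ≤ |a i n| := by
    intro i n
    rw [htr]
    split_ifs
    · exact le_rfl
    · rw [abs_zero]
      exact abs_nonneg _
  -- the net
  have hnet : ∀ (f : ℕ → ℝ) (i : ι) (J : ℕ) (b : Bool) (p q : ℕ), (∀ w ∈ W J, |∑ n ∈ Icc 1 (2 ^ J), w n * f n| ≤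
      (2 : ℝ) ^ (ε / 2 * J) * √(nn (2 ^ J) w)) → T i ≤ 2 ^ J → (2 : ℝ) ^ J ≤ 2 ^ (q₀ + r) * T i →
      p < 32 ^ J + 1 → q < (⌈y₁⌉₊ + 1) * 32 ^ J + 1 → y₀ ≤ (q : ℝ) / 32 ^ J →
      (q : ℝ) / 32 ^ J ≤ y₁ + 1 →
      |∑ n ∈ Icc 1 (2 ^ J), tm (T i) (trT m 0 (T i) (a i)) b ((p : ℝ) / 32 ^ J) ((q : ℝ) / 32 ^ J) n *
        f n| ≤ C₃ * T i ^ ε := by
    intro f i J b p q hC₂ hTJ hTJ' hp hq hq0 hq1
    have hTi := hT i
    have hTi0 : 0 < T i := by linarith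
    have hmem : trw (2 ^ J) (tm (T i) (trT m 0 (T i) (a i)) b ((p : ℝ) / 32 ^ J) ((q : ℝ) / 32 ^ J)) ∈
        W J := by
      refine Finset.mem_image.2 ⟨(i, p, q, b), ?_, rfl⟩
      rw [mem_product, mem_product, mem_product, Set.Finite.mem_toFinset, mem_range, mem_range]
      exact ⟨hTJ, hp, hq, mem_univ _⟩
    have h5 := hC₂ _ hmem
    have h6 : ∑ n ∈ Icc 1 (2 ^ J), trw (2 ^ J) (tm (T i) (trT m 0 (T i) (a i)) b ((p : ℝ) / 32 ^ J)
        ((q : ℝ) / 32 ^ J)) n * f n =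
        ∑ n ∈ Icc 1 (2 ^ J), tm (T i) (trT m 0 (T i) (a i)) b ((p : ℝ) / 32 ^ J) ((q : ℝ) / 32 ^ J) n *
          f n := by
      refine sum_congr rfl fun n hn => ?_
      rw [mem_Icc] at hn
      unfold trw
      rw [if_pos hn]
    rw [h6] at h5
    refine h5.trans ?_
    have hnn : nn (2 ^ J) (trw (2 ^ J) (tm (T i) (trT m 0 (T i) (a i)) b ((p : ℝ) / 32 ^ J)
        ((q : ℝ) / 32 ^ J))) ≤ CN * T i ^ (5 * (ε / 8)) := by
      refine hKN i ((q : ℝ) / 32 ^ J) (2 ^ J) _ hq0 hq1 ?_ ?_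
      · intro n
        unfold trw
        have hx : 0 < T i * (1 + |T i - 2 * Real.pi * n * ((q : ℝ) / 32 ^ J)|) := by
          have := abs_nonneg (T i - 2 * Real.pi * n * ((q : ℝ) / 32 ^ J))
          positivity
        split_ifs with hn
        · refine (tm_bdW CW (T i) hCW0 hTi hampW (trT m 0 (T i) (a i)) b _ _ (y₁ + 1) (hy₀.trans_le hq0)
            hq1 n hn.1).trans ?_
          refine div_le_div_of_nonneg_right ?_ (by positivity)
          exact mul_le_mul_of_nonneg_left (htr1 i n) (by positivity)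
        · rw [abs_zero]
          positivity
      · intro n hn
        unfold trw
        split_ifs with hn'
        · unfold tm
          rw [htr, if_neg (not_le.2 hn)]
          ring
        · rfl
    have hsq : √(nn (2 ^ J) (trw (2 ^ J) (tm (T i) (trT m 0 (T i) (a i)) b ((p : ℝ) / 32 ^ J)
        ((q : ℝ) / 32 ^ J)))) ≤ √CN * T i ^ (ε / 2) := by
      rw [Real.sqrt_le_left (by positivity)]
      refine hnn.trans ?_
      have e1 : (√CN * T i ^ (ε / 2)) ^ 2 = CN * T i ^ ε := by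
        rw [mul_pow, Real.sq_sqrt hCN0, ← Real.rpow_natCast, ← Real.rpow_mul hTi0.le]
        congr 2
        push_cast
        ring
      rw [e1]
      refine mul_le_mul_of_nonneg_left ?_ hCN0
      exact Real.rpow_le_rpow_of_exponent_le hTi (by linarith)
    have h7 : (2 : ℝ) ^ (ε / 2 * J) ≤ (2 ^ (q₀ + r)) ^ (ε / 2) * T i ^ (ε / 2) := by
      have e2 : (2 : ℝ) ^ (ε / 2 * J) = ((2 : ℝ) ^ J) ^ (ε / 2) := by
        rw [← Real.rpow_natCast, ← Real.rpow_mul (by norm_num)]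
        congr 1
        ring
      rw [e2, ← Real.mul_rpow (by positivity) hTi0.le]
      exact Real.rpow_le_rpow (by positivity) hTJ' hε2.le
    have e3 : T i ^ ε = T i ^ (ε / 2) * T i ^ (ε / 2) := by
      rw [← Real.rpow_add hTi0]
      congr 1
      ring
    calc (2 : ℝ) ^ (ε / 2 * J) * √(nn (2 ^ J) (trw (2 ^ J) (tm (T i) (trT m 0 (T i) (a i)) b
          ((p : ℝ) / 32 ^ J) ((q : ℝ) / 32 ^ J))))
        ≤ ((2 ^ (q₀ + r)) ^ (ε / 2) * T i ^ (ε / 2)) * (√CN * T i ^ (ε / 2)) := by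
          refine mul_le_mul h7 hsq (Real.sqrt_nonneg _) (by positivity)
      _ = C₃ * T i ^ ε := by
          rw [hC₃, e3]
          ring
  -- the truncated sum
  have htrunc : ∀ (f : ℕ → ℝ) (i : ι) (J : ℕ) (b : Bool) (x y : ℝ), (∀ n, |f n| ≤ 1) →
      (∀ w ∈ W J, |∑ n ∈ Icc 1 (2 ^ J), w n * f n| ≤ (2 : ℝ) ^ (ε / 2 * J) * √(nn (2 ^ J) w)) →
      T i ≤ 2 ^ J → m * T i ≤ 2 ^ J → (2 : ℝ) ^ J ≤ 2 ^ (q₀ + r) * T i → y₀ ≤ y → y ≤ y₁ →
      |∑' n : ℕ, tm (T i) (trT m 0 (T i) (a i)) b x y (n + 1) * f (n + 1)| ≤ C₃ * T i ^ ε + C₁ * K₂ := by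
    intro f i J b x y hf hC₂ hTJ hJ1 hJ2 hy hyy
    have hTi := hT i
    have h32 : (0 : ℝ) < 32 ^ J := by positivity
    have hy1 : y₁ ≤ ⌈y₁⌉₊ := Nat.le_ceil _
    have hfr0 := Int.fract_nonneg x
    have hfr1 := Int.fract_lt_one x
    set p := ⌊Int.fract x * 32 ^ J⌋₊ with hp
    set q := ⌈y * 32 ^ J⌉₊ with hq
    have hy0 : 0 < y := hy₀.trans_le hy
    have hpb1 : (p : ℝ) ≤ Int.fract x * 32 ^ J := Nat.floor_le (by positivity)
    have hpb2 : Int.fract x * 32 ^ J < p + 1 := Nat.lt_floor_add_one _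
    have hqb1 : y * 32 ^ J ≤ q := Nat.le_ceil _
    have hqb2 : (q : ℝ) < y * 32 ^ J + 1 := Nat.ceil_lt_add_one (by positivity)
    have hp1 : p < 32 ^ J + 1 := by
      have h5 : (p : ℝ) < (32 ^ J + 1 : ℕ) := by
        push_cast
        nlinarith
      exact_mod_cast h5
    have hq1 : q < (⌈y₁⌉₊ + 1) * 32 ^ J + 1 := by
      have h5 : (q : ℝ) < ((⌈y₁⌉₊ + 1) * 32 ^ J + 1 : ℕ) := by
        push_cast
        have h6 : y * 32 ^ J ≤ (⌈y₁⌉₊ + 1) * 32 ^ J :=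
          mul_le_mul_of_nonneg_right (by linarith) h32.le
        linarith
      exact_mod_cast h5
    have h321 : (1 : ℝ) ≤ 32 ^ J := one_le_pow₀ (by norm_num)
    have hy'1 : y ≤ (q : ℝ) / 32 ^ J := by
      rw [le_div_iff₀ h32]
      exact hqb1
    have hy'2 : (q : ℝ) / 32 ^ J ≤ y + 1 / 32 ^ J := by
      rw [div_le_iff₀ h32, add_mul, one_div, inv_mul_cancel₀ h32.ne']
      exact hqb2.le
    have hd1 : 1 / (32 : ℝ) ^ J ≤ 1 := by
      rw [div_le_one h32]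
      exact h321
    have hy'3 : (q : ℝ) / 32 ^ J ≤ y₁ + 1 := by linarith
    have hxx : |Int.fract x - (p : ℝ) / 32 ^ J| ≤ 1 / 32 ^ J := by
      rw [abs_le]
      constructor
      · have h5 : (p : ℝ) / 32 ^ J ≤ Int.fract x := by
          rw [div_le_iff₀ h32]
          exact hpb1
        have h6 : (0 : ℝ) < 1 / 32 ^ J := by positivity
        linarith
      · rw [sub_le_iff_le_add, ← add_div, le_div_iff₀ h32]
        linarith
    have hyyy : |y - (q : ℝ) / 32 ^ J| ≤ 1 / 32 ^ J := by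
      rw [abs_le]
      constructor <;> linarith
    have hnetb := hnet f i J b p q hC₂ hTJ hJ2 hp1 hq1 (hy.trans hy'1) hy'3
    -- the finite sum
    have hdiff : ∀ n ∈ Icc 1 (2 ^ J), |tm (T i) (trT m 0 (T i) (a i)) b x y n * f n -
        tm (T i) (trT m 0 (T i) (a i)) b ((p : ℝ) / 32 ^ J) ((q : ℝ) / 32 ^ J) n * f n| ≤
          C₁ * K₂ / 2 ^ J := by
      intro n hn
      rw [mem_Icc] at hn
      have hn1 : (1 : ℝ) ≤ n := by exact_mod_cast hn.1
      have hn2 : (n : ℝ) ≤ 2 ^ J := by exact_mod_cast hn.2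
      rw [← sub_mul, abs_mul, tm_per]
      refine (mul_le_of_le_one_right (abs_nonneg _) (hf _)).trans ?_
      refine (tm_lip CB (T i) hCB0 hTi (hamp _ hTi).1 (hamp _ hTi).2 (trT m 0 (T i) (a i)) b _ y _ _ y₀
        (y₁ + 1) (1 / 32 ^ J) hy₀ hy (hy.trans hy'1) hy'3 hxx hyyy n hn.1).trans ?_
      rw [← hK₂]
      have h5 : |trT m 0 (T i) (a i) n| ≤ C₁ * (2 ^ J * 2 ^ J) := by
        refine ((htr1 i n).trans (hC₁ i n hn.1)).trans ?_
        exact mul_le_mul_of_nonneg_left (mul_le_mul hn2 hTJ (by linarith) (by positivity)) hC₁0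
      have h6 : T i * n * (1 / 32 ^ J) ≤ 2 ^ J * 2 ^ J * (1 / 32 ^ J) :=
        mul_le_mul_of_nonneg_right (mul_le_mul hTJ hn2 (by linarith) (by positivity)) (by positivity)
      calc |trT m 0 (T i) (a i) n| * K₂ * (T i * n * (1 / 32 ^ J))
          ≤ C₁ * (2 ^ J * 2 ^ J) * K₂ * (2 ^ J * 2 ^ J * (1 / 32 ^ J)) := by
            refine mul_le_mul (mul_le_mul_of_nonneg_right h5 hK₂0) h6 (by positivity) (by positivity)
        _ = C₁ * K₂ / 2 ^ J := by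
            have h7 : (32 : ℝ) ^ J = (2 ^ J) ^ 5 := by
              rw [← pow_mul, mul_comm, pow_mul]
              norm_num
            rw [h7]
            field_simp
    have hfinsum : |∑ n ∈ Icc 1 (2 ^ J), tm (T i) (trT m 0 (T i) (a i)) b x y n * f n| ≤
        C₃ * T i ^ ε + C₁ * K₂ := by
      have h5 : |∑ n ∈ Icc 1 (2 ^ J), tm (T i) (trT m 0 (T i) (a i)) b x y n * f n -
          ∑ n ∈ Icc 1 (2 ^ J), tm (T i) (trT m 0 (T i) (a i)) b ((p : ℝ) / 32 ^ J) ((q : ℝ) / 32 ^ J) n *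
            f n| ≤ C₁ * K₂ := by
        rw [← sum_sub_distrib]
        refine (abs_sum_le_sum_abs _ _).trans ((sum_le_sum hdiff).trans (le_of_eq ?_))
        rw [sum_const, Nat.card_Icc, nsmul_eq_mul, Nat.add_sub_cancel]
        push_cast
        field_simp
      have h6 := abs_sub_abs_le_abs_sub
        (∑ n ∈ Icc 1 (2 ^ J), tm (T i) (trT m 0 (T i) (a i)) b x y n * f n)
        (∑ n ∈ Icc 1 (2 ^ J), tm (T i) (trT m 0 (T i) (a i)) b ((p : ℝ) / 32 ^ J) ((q : ℝ) / 32 ^ J) n *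
          f n)
      linarith
    have hts : ∑' n : ℕ, tm (T i) (trT m 0 (T i) (a i)) b x y (n + 1) * f (n + 1) =
        ∑ n ∈ Icc 1 (2 ^ J), tm (T i) (trT m 0 (T i) (a i)) b x y n * f n := by
      rw [← sum_range_Icc (fun n => tm (T i) (trT m 0 (T i) (a i)) b x y n * f n)]
      refine tsum_eq_sum fun n hn => ?_
      rw [mem_range, not_lt] at hn
      have h5 : (m : ℝ) * T i < ((n + 1 : ℕ) : ℝ) := by
        have h6 : (2 : ℝ) ^ J ≤ n := by exact_mod_cast hn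
        push_cast
        linarith
      unfold tm
      rw [htr, if_neg (not_le.2 h5)]
      ring
    rw [hts]
    exact hfinsum
  -- all coefficients
  set Mc := ∑' n : ℕ, |C₁| * y₀ * (((n + 1 : ℕ) : ℝ) ^ 2 *
    Real.exp (-(Real.pi * y₀) * ((n + 1 : ℕ) : ℝ))) with hMc
  have hM0 : 0 ≤ Mc := tsum_nonneg fun n => by positivity
  have hjc : ∀ md n : ℕ, |jc md n| ≤ 1 := by
    intro md n
    unfold jc
    rcases jacobiSym.trichotomy (n : ℤ) md with h0 | h0 | h0 <;> rw [h0] <;> norm_num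
  refine ⟨C₃ + C₁ * K₂ + Mc, (hQ.scale le_rfl r).mono fun J md hmem i x y hTJ hJT hy hyy => ?_⟩
  have hTi := hT i
  have hTε : (1 : ℝ) ≤ T i ^ ε := Real.one_le_rpow hTi hε.le
  have hrR : (m : ℝ) ≤ 2 ^ r := by exact_mod_cast hr
  have hJJ : (2 : ℝ) ^ (1 * J + r) = 2 ^ J * 2 ^ r := by rw [one_mul, pow_add]
  have h2r : (1 : ℝ) ≤ 2 ^ r := one_le_pow₀ (by norm_num)
  have h2J : (0 : ℝ) < 2 ^ J := by positivity
  have g1 : T i ≤ 2 ^ (1 * J + r) := by
    rw [hJJ]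
    nlinarith
  have g2 : m * T i ≤ 2 ^ (1 * J + r) := by
    rw [hJJ, mul_comm (2 ^ J : ℝ)]
    exact mul_le_mul hrR hTJ (by linarith) (by positivity)
  have g3 : (2 : ℝ) ^ (1 * J + r) ≤ 2 ^ (q₀ + r) * T i := by
    rw [hJJ, pow_add]
    have := mul_le_mul_of_nonneg_right hJT (by positivity : (0 : ℝ) ≤ 2 ^ r)
    linarith
  have H : ∀ b : Bool, |∑' n : ℕ, tm (T i) (a i) b x y (n + 1) * jc md (n + 1)| ≤
      (C₃ + C₁ * K₂ + Mc) * T i ^ ε := by
    intro b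
    have h5 := one_member' h1 (m := m) (θ := 0) (T := T i) (C := C₁) (a := a i) b le_rfl hTi hy₀ hy hm1 (K := 2)
      (by norm_num) (fun n hn => by
        rw [Real.rpow_zero, mul_one]
        exact hC₁ i n hn) x (jc md) (hjc md)
    rw [Real.rpow_zero, one_mul, ← hMc] at h5
    have h6 := htrunc (jc md) i (1 * J + r) b x y (hjc md) hmem g1 g2 g3 hy hyy
    have h7 : 0 ≤ C₁ * K₂ + Mc := by positivity
    nlinarith
  refine ⟨?_, ?_⟩
  · rw [phc_eq]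
    exact H true
  · rw [phs_eq]
    exact H false

end Pool.Agent.Q275.L2
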