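import Pool.Agent.Q255.L2.StmG
import Pool.Agent.Q190.IR.Dpi

/-! # Project L2 (helper255), job S_COND: the information of a conditional law -/

set_option autoImplicit false

namespace Pool.Agent.Q275.L2

open Filter Topology MeasureTheory Pool.Agent.Q255.IC Pool.Agent.Q255.IR Pool.Agent.Q255.EP
open Pool.Agent.Q150.IC (cyl_meas sum_cyl)

/-- the pointwise inequality -/
theorem pw (a x y : ℝ) (ha : 0 < a) (ha1 : a ≤ 1) (hy : 0 ≤ y) (hyx : y ≤ x / a) :
    y * Real.log y ≤ 1 / a * (x * Real.log x + 1 + x * Real.log (1 / a)) := by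
  have hx : 0 ≤ x := by
    have h1 : 0 ≤ x / a := hy.trans hyx
    have h2 := mul_nonneg h1 ha.le
    rwa [div_mul_cancel₀ _ ha.ne'] at h2
  have h1a : 1 ≤ 1 / a := by
    rw [le_div_iff₀ ha]
    linarith
  have hl : 0 ≤ Real.log (1 / a) := Real.log_nonneg h1a
  have hxl : 0 ≤ x * Real.log x + 1 := by
    rcases hx.eq_or_lt with h | h
    · rw [← h]
      simp
    · have h2 := Real.one_sub_inv_le_log_of_pos h
      have h3 := mul_le_mul_of_nonneg_left h2 hx
      rw [mul_sub, mul_inv_cancel₀ h.ne'] at h3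
      linarith
  rcases le_total y 1 with h | h
  · have h2 : y * Real.log y ≤ 0 := mul_nonpos_of_nonneg_of_nonpos hy (Real.log_nonpos hy h)
    have h3 : 0 ≤ 1 / a * (x * Real.log x + 1 + x * Real.log (1 / a)) := by positivity
    linarith
  · have hy0 : 0 < y := by linarith
    have hx0 : 0 < x := by
      rcases hx.eq_or_lt with h2 | h2
      · rw [← h2, zero_div] at hyx
        linarith
      · exact h2
    have h2 : Real.log y ≤ Real.log (x / a) := Real.log_le_log hy0 hyx
    have h3 : 0 ≤ Real.log (x / a) := (Real.log_nonneg h).trans h2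
    calc y * Real.log y ≤ x / a * Real.log (x / a) :=
          mul_le_mul hyx h2 (Real.log_nonneg h) (by positivity)
      _ = 1 / a * (x * Real.log x + x * Real.log (1 / a)) := by
          rw [Real.log_div hx0.ne' ha.ne', Real.log_div one_ne_zero ha.ne', Real.log_one]
          ring
      _ ≤ 1 / a * (x * Real.log x + 1 + x * Real.log (1 / a)) := by
          refine mul_le_mul_of_nonneg_left ?_ (by positivity)
          linarith

theorem sum_one (ν : Measure (ℕ → Bool)) [IsProbabilityMeasure ν] (n : ℕ) :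
    ∑ s : Fin n → Bool, ν.real {ω : ℕ → Bool | ∀ k : Fin n, ω k = s k} = 1 := by
  have h1 := sum_cyl ν n Set.univ
  simp only [Set.inter_univ] at h1
  rw [measureReal_def, measure_univ, ENNReal.toReal_one] at h1
  exact h1

/-- the information as a mean -/
theorem D_eq (ν : Measure (ℕ → Bool)) [IsProbabilityMeasure ν] (n : ℕ) :
    D ν n = (∑ s : Fin n → Bool, (2 ^ n * ν.real {ω : ℕ → Bool | ∀ k : Fin n, ω k = s k}) *
      Real.log (2 ^ n * ν.real {ω : ℕ → Bool | ∀ k : Fin n, ω k = s k})) / 2 ^ n := by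
  have h1 := sum_one ν n
  have h2 : ∀ s : Fin n → Bool, (2 ^ n * ν.real {ω : ℕ → Bool | ∀ k : Fin n, ω k = s k}) *
      Real.log (2 ^ n * ν.real {ω : ℕ → Bool | ∀ k : Fin n, ω k = s k}) =
      2 ^ n * (ν.real {ω : ℕ → Bool | ∀ k : Fin n, ω k = s k} * (n * Real.log 2) -
        Real.negMulLog (ν.real {ω : ℕ → Bool | ∀ k : Fin n, ω k = s k})) := by
    intro s
    rcases (measureReal_nonneg (μ := ν) (s := {ω : ℕ → Bool | ∀ k : Fin n, ω k = s k})).eq_or_lt with h | h
    · rw [← h]
      simp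
    · rw [Real.log_mul (by positivity) h.ne', Real.log_pow, Real.negMulLog]
      ring
  rw [Finset.sum_congr rfl fun s _ => h2 s, ← Finset.mul_sum, Finset.sum_sub_distrib, ← Finset.sum_mul, h1, one_mul]
  unfold D entropy
  field_simp

theorem cond : Pool.Agent.Q255.L2.S_COND := by
  intro ν _ E hE h0
  have hP : IsProbabilityMeasure (ProbabilityTheory.cond ν E) := ProbabilityTheory.cond_isProbabilityMeasure h0
  refine ⟨hP, ?_⟩
  obtain ⟨a, ha⟩ : ∃ a : ℝ, a = ν.real E := ⟨_, rfl⟩
  have ha0 : 0 < a := by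
    rw [ha, measureReal_def]
    exact ENNReal.toReal_pos h0 (measure_ne_top ν E)
  have ha1 : a ≤ 1 := by
    rw [ha]
    exact measureReal_le_one
  have h1a : 1 ≤ 1 / a := by
    rw [le_div_iff₀ ha0]
    linarith
  have hl : 0 ≤ Real.log (1 / a) := Real.log_nonneg h1a
  refine ⟨1 / a * (1 + Real.log (1 / a)), fun n => ?_⟩
  have hD := (Pool.Agent.Q190.IR.t_DPI ν n Finset.univ).1
  have h2n : (0 : ℝ) < 2 ^ n := by positivity
  have key : ∀ s : Fin n → Bool,
      (2 ^ n * (ProbabilityTheory.cond ν E).real {ω : ℕ → Bool | ∀ k : Fin n, ω k = s k}) *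
        Real.log (2 ^ n * (ProbabilityTheory.cond ν E).real {ω : ℕ → Bool | ∀ k : Fin n, ω k = s k}) ≤
      1 / a * ((2 ^ n * ν.real {ω : ℕ → Bool | ∀ k : Fin n, ω k = s k}) *
        Real.log (2 ^ n * ν.real {ω : ℕ → Bool | ∀ k : Fin n, ω k = s k}) + 1 +
        (2 ^ n * ν.real {ω : ℕ → Bool | ∀ k : Fin n, ω k = s k}) * Real.log (1 / a)) := by
    intro s
    refine pw a _ _ ha0 ha1 (by positivity) ?_
    have h3 : (ProbabilityTheory.cond ν E).real {ω : ℕ → Bool | ∀ k : Fin n, ω k = s k} ≤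
        ν.real {ω : ℕ → Bool | ∀ k : Fin n, ω k = s k} / a := by
      rw [measureReal_def, ProbabilityTheory.cond_apply hE, ENNReal.toReal_mul, ENNReal.toReal_inv,
        ← measureReal_def, ← measureReal_def, ← ha, div_eq_inv_mul]
      refine mul_le_mul_of_nonneg_left ?_ (by positivity)
      exact measureReal_mono Set.inter_subset_right (measure_ne_top _ _)
    calc 2 ^ n * (ProbabilityTheory.cond ν E).real {ω : ℕ → Bool | ∀ k : Fin n, ω k = s k}
        ≤ 2 ^ n * (ν.real {ω : ℕ → Bool | ∀ k : Fin n, ω k = s k} / a) :=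
          mul_le_mul_of_nonneg_left h3 h2n.le
      _ = _ := by ring
  have hsum := Finset.sum_le_sum (s := Finset.univ) fun (s : Fin n → Bool) _ => key s
  rw [← Finset.mul_sum, Finset.sum_add_distrib, Finset.sum_add_distrib, ← Finset.sum_mul, ← Finset.mul_sum,
    sum_one ν n, Finset.sum_const, nsmul_eq_mul, mul_one, mul_one] at hsum
  have hc : ((Finset.univ : Finset (Fin n → Bool)).card : ℝ) = 2 ^ n := by simp
  rw [hc] at hsum
  have e1 : D (ProbabilityTheory.cond ν E) n ≤ 1 / a * (D ν n + 1 + Real.log (1 / a)) := by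
    rw [D_eq, D_eq ν, div_le_iff₀ h2n]
    refine hsum.trans (le_of_eq ?_)
    field_simp
  refine e1.trans ?_
  rw [mul_assoc]
  refine mul_le_mul_of_nonneg_left ?_ (by positivity)
  have := mul_nonneg hl hD
  nlinarith

end Pool.Agent.Q275.L2
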