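import Pool.Agent.Q255.L2.StmV
import Pool.Agent.Q13.EP.POLY

/-! # Project L2 (helper255), job S_SHP: all short intervals, all polynomial phases -/

set_option autoImplicit false

namespace Pool.Agent.Q275.L2

open Filter Topology MeasureTheory Pool.Agent.Q255.IC Pool.Agent.Q255.IR Pool.Agent.Q255.EP Pool.Agent.Q255.L2
open Pool.Agent.Q13.EP (phs ee_eq ee_add ee_int norm_ee norm_ee_sub abs_cm sq_part_inj)
open scoped ENNReal

/-- the norm of a function bounded by one with support in a short interval -/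
theorem nn_le (X M R : ℕ) (hMR : M ≤ R) (w : ℕ → ℝ) (hw : ∀ m, |w m| ≤ 1)
    (h0 : ∀ m, ¬ (M < m ∧ m ≤ R) → w m = 0) :
    nn X w ≤ ((R : ℝ) - M) * (2 * (∑ s ∈ Finset.Icc 1 X, 1 / (s : ℝ)) + 2) := by
  classical
  -- the number of the r
  obtain ⟨T, hT⟩ : ∃ T : ℕ → Finset ℕ, T = fun s => (Finset.Icc 1 X).filter fun r => M < r ^ 2 * s ∧ r ^ 2 * s ≤ R :=
    ⟨_, rfl⟩
  have hmT : ∀ s r, r ∈ T s ↔ (1 ≤ r ∧ r ≤ X) ∧ M < r ^ 2 * s ∧ r ^ 2 * s ≤ R := by
    intro s r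
    rw [hT, Finset.mem_filter, Finset.mem_Icc]
  have hRM : (0 : ℝ) ≤ (R : ℝ) - M := by
    have : (M : ℝ) ≤ R := by exact_mod_cast hMR
    linarith
  have h1 : ∀ s, ∑ r ∈ Finset.Icc 1 X, |w (r ^ 2 * s)| ≤ (T s).card := by
    intro s
    have h2 : ∑ r ∈ Finset.Icc 1 X, |w (r ^ 2 * s)| ≤ ∑ r ∈ Finset.Icc 1 X, if M < r ^ 2 * s ∧ r ^ 2 * s ≤ R then 1 else 0 := by
      refine Finset.sum_le_sum fun r _ => ?_
      split_ifs with h
      · exact hw _
      · rw [h0 _ h, abs_zero]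
    refine h2.trans (le_of_eq ?_)
    rw [← Finset.sum_filter, Finset.sum_const, nsmul_eq_mul, mul_one, hT]
  -- the square
  have h2 : ∀ s, 1 ≤ s → ((T s).card : ℝ) ^ 2 ≤ 2 * (((R : ℝ) - M) * (1 / (s : ℝ))) + 2 * (T s).card := by
    intro s hs
    have hs0 : (0 : ℝ) < s := by exact_mod_cast hs
    rcases (T s).eq_empty_or_nonempty with h | h
    · rw [h]
      simp only [Finset.card_empty, Nat.cast_zero, mul_zero, add_zero]
      have : (0 : ℝ) ≤ 2 * (((R : ℝ) - M) * (1 / (s : ℝ))) := by positivity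
      simpa using this
    · have ha := (T s).min'_mem h
      have hb := (T s).max'_mem h
      have hsub : T s ⊆ Finset.Icc ((T s).min' h) ((T s).max' h) := by
        intro r hr
        rw [Finset.mem_Icc]
        exact ⟨(T s).min'_le r hr, (T s).le_max' r hr⟩
      have hab : (T s).min' h ≤ (T s).max' h := (T s).min'_le _ hb
      have hc := Finset.card_le_card hsub
      rw [Nat.card_Icc] at hc
      obtain ⟨a, hea⟩ : ∃ a, a = (T s).min' h := ⟨_, rfl⟩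
      obtain ⟨b, heb⟩ : ∃ b, b = (T s).max' h := ⟨_, rfl⟩
      rw [← hea] at ha hab hc
      rw [← heb] at hb hab hc
      rw [hmT] at ha hb
      have hbr : ((b : ℝ) ^ 2 * s) ≤ R := by exact_mod_cast hb.2.2
      have har : (M : ℝ) ≤ (a : ℝ) ^ 2 * s := by exact_mod_cast ha.2.1.le
      have habr : (a : ℝ) ≤ b := by exact_mod_cast hab
      have hcr : ((T s).card : ℝ) ≤ (b : ℝ) - a + 1 := by
        have : (T s).card + a ≤ b + 1 := by omega
        have h3 : ((T s).card : ℝ) + a ≤ b + 1 := by exact_mod_cast this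
        linarith
      have hc1 : (1 : ℝ) ≤ (T s).card := by exact_mod_cast h.card_pos
      have ha0 : (0 : ℝ) ≤ a := Nat.cast_nonneg a
      have h3 : (((T s).card : ℝ) - 1) ^ 2 ≤ ((b : ℝ) - a) ^ 2 := by
        refine pow_le_pow_left₀ (by linarith) (by linarith) 2
      have h4 : ((b : ℝ) - a) ^ 2 ≤ (b : ℝ) ^ 2 - (a : ℝ) ^ 2 := by nlinarith
      have h5 : ((b : ℝ) ^ 2 - (a : ℝ) ^ 2) * s ≤ (R : ℝ) - M := by nlinarith
      have h6 : (((T s).card : ℝ) - 1) ^ 2 ≤ ((R : ℝ) - M) * (1 / (s : ℝ)) := by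
        rw [mul_one_div, le_div_iff₀ hs0]
        refine le_trans (mul_le_mul_of_nonneg_right (h3.trans h4) hs0.le) h5
      nlinarith [sq_nonneg (((T s).card : ℝ) - 2)]
  -- the total number
  have h3 : ∑ s ∈ (Finset.Icc 1 X).filter Squarefree, ((T s).card : ℝ) ≤ (R : ℝ) - M := by
    have h4 : ∑ s ∈ (Finset.Icc 1 X).filter Squarefree, (T s).card ≤ (Finset.Ioc M R).card := by
      rw [← Finset.card_sigma]
      refine Finset.card_le_card_of_injOn (fun q => q.2 ^ 2 * q.1) ?_ ?_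
      · intro q hq
        rw [Finset.mem_coe, Finset.mem_sigma, hmT] at hq
        rw [Finset.mem_coe, Finset.mem_Ioc]
        exact hq.2.2
      · intro q hq q' hq' he
        rw [Finset.mem_coe, Finset.mem_sigma, hmT, Finset.mem_filter] at hq hq'
        obtain ⟨h5, h6⟩ := sq_part_inj (by omega) (by omega) hq.1.2 hq'.1.2 he
        exact Sigma.ext h6 (heq_of_eq h5)
    rw [Nat.card_Ioc] at h4
    have h5 : ((∑ s ∈ (Finset.Icc 1 X).filter Squarefree, (T s).card : ℕ) : ℝ) ≤ ((R - M : ℕ) : ℝ) := by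
      exact_mod_cast h4
    rw [Nat.cast_sub hMR] at h5
    push_cast at h5
    exact h5
  unfold nn
  calc ∑ s ∈ (Finset.Icc 1 X).filter Squarefree, (∑ r ∈ Finset.Icc 1 X, |w (r ^ 2 * s)|) ^ 2
      ≤ ∑ s ∈ (Finset.Icc 1 X).filter Squarefree,
        (2 * (((R : ℝ) - M) * (1 / (s : ℝ))) + 2 * ((T s).card : ℝ)) := by
        refine Finset.sum_le_sum fun s hs => ?_
        rw [Finset.mem_filter, Finset.mem_Icc] at hs
        refine le_trans ?_ (h2 s hs.1.1)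
        exact pow_le_pow_left₀ (Finset.sum_nonneg fun _ _ => abs_nonneg _) (h1 s) 2
    _ = 2 * (((R : ℝ) - M) * ∑ s ∈ (Finset.Icc 1 X).filter Squarefree, 1 / (s : ℝ)) +
        2 * ∑ s ∈ (Finset.Icc 1 X).filter Squarefree, ((T s).card : ℝ) := by
        rw [Finset.sum_add_distrib, ← Finset.mul_sum, ← Finset.mul_sum, ← Finset.mul_sum]
    _ ≤ 2 * (((R : ℝ) - M) * ∑ s ∈ Finset.Icc 1 X, 1 / (s : ℝ)) + 2 * ((R : ℝ) - M) := by
        refine add_le_add (mul_le_mul_of_nonneg_left (mul_le_mul_of_nonneg_left ?_ hRM) (by norm_num))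
          (mul_le_mul_of_nonneg_left h3 (by norm_num))
        exact Finset.sum_le_sum_of_subset_of_nonneg (Finset.filter_subset _ _) fun s _ _ => by positivity
    _ = _ := by ring

theorem harm (J : ℕ) : ∑ s ∈ Finset.Icc (1 : ℕ) (2 ^ J), 1 / (s : ℝ) ≤ 1 + J := by
  have h1 := harmonic_le_one_add_log (2 ^ J)
  rw [harmonic_eq_sum_Icc] at h1
  push_cast at h1
  rw [Real.log_pow] at h1
  have h2 : ∑ s ∈ Finset.Icc (1 : ℕ) (2 ^ J), 1 / (s : ℝ) = ∑ s ∈ Finset.Icc (1 : ℕ) (2 ^ J), (s : ℝ)⁻¹ :=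
    Finset.sum_congr rfl fun s _ => one_div _
  rw [h2]
  refine h1.trans ?_
  have h3 : Real.log 2 ≤ 1 := by
    have := Real.log_two_lt_d9
    linarith
  have h4 : (J : ℝ) * Real.log 2 ≤ J * 1 := mul_le_mul_of_nonneg_left h3 (Nat.cast_nonneg J)
  linarith

theorem nn_two (J M R : ℕ) (hMR : M ≤ R) (w : ℕ → ℝ) (hw : ∀ m, |w m| ≤ 1)
    (h0 : ∀ m, ¬ (M < m ∧ m ≤ R) → w m = 0) :
    nn (2 ^ J) w ≤ ((R : ℝ) - M) * (2 * J + 4) := by
  have hRM : (0 : ℝ) ≤ (R : ℝ) - M := by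
    have : (M : ℝ) ≤ R := by exact_mod_cast hMR
    linarith
  refine (nn_le (2 ^ J) M R hMR w hw h0).trans (mul_le_mul_of_nonneg_left ?_ hRM)
  have := harm J
  linarith

theorem lin_le (ε : ℝ) (hε : 0 < ε) (J : ℕ) :
    2 * (J : ℝ) + 4 ≤ (4 + 2 / (ε * Real.log 2)) * (2 : ℝ) ^ (ε * J) := by
  have hl : 0 < Real.log 2 := Real.log_pos (by norm_num)
  have h1 : 1 + ε * J * Real.log 2 ≤ (2 : ℝ) ^ (ε * J) := by
    rw [Real.rpow_def_of_pos (by norm_num)]
    have := Real.add_one_le_exp (Real.log 2 * (ε * J))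
    linarith
  have hp : 0 < ε * Real.log 2 := by positivity
  have h2 : (4 + 2 / (ε * Real.log 2)) * (1 + ε * J * Real.log 2) ≤
      (4 + 2 / (ε * Real.log 2)) * (2 : ℝ) ^ (ε * J) := mul_le_mul_of_nonneg_left h1 (by positivity)
  refine le_trans ?_ h2
  have h3 : 2 / (ε * Real.log 2) * (ε * J * Real.log 2) = 2 * J := by
    field_simp
  have h4 : (4 + 2 / (ε * Real.log 2)) * (1 + ε * J * Real.log 2) =
      4 + 4 * (ε * J * Real.log 2) + 2 / (ε * Real.log 2) + 2 / (ε * Real.log 2) * (ε * J * Real.log 2) := by ring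
  rw [h4, h3]
  have h5 : 0 ≤ 4 * (ε * J * Real.log 2) := by positivity
  have h6 : 0 ≤ 2 / (ε * Real.log 2) := by positivity
  linarith

/-- the weights -/
noncomputable def wfs (a : ℕ → ℝ) (d Q M R : ℕ) (b : Fin (d + 1) → Fin Q) (t : Bool) (m : ℕ) : ℝ :=
  if M < m ∧ m ≤ R then a m * (if t then Real.cos (2 * Real.pi * phs d Q b m)
    else Real.sin (2 * Real.pi * phs d Q b m)) else 0

theorem abs_wfs (a : ℕ → ℝ) (ha : ∀ n, |a n| ≤ 1) (d Q M R : ℕ) (b : Fin (d + 1) → Fin Q) (t : Bool)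
    (m : ℕ) : |wfs a d Q M R b t m| ≤ 1 := by
  unfold wfs
  split_ifs
  · rw [abs_mul]
    exact mul_le_one₀ (ha m) (abs_nonneg _) (Real.abs_cos_le_one _)
  · rw [abs_mul]
    exact mul_le_one₀ (ha m) (abs_nonneg _) (Real.abs_sin_le_one _)
  · simp

theorem shp (hE : S_ENG2) : S_SHP := by
  classical
  intro ν _ hν a ha
  -- the family of weights
  let QQ : ℕ → ℕ → ℕ := fun d J => 2 ^ (J * (d + 1))
  let W : ℕ → ℕ → Finset (ℕ → ℝ) := fun d J =>
    Finset.image (fun q : Fin (2 ^ J + 1) × Fin (2 ^ J + 1) × (Fin (d + 1) → Fin (QQ d J)) × Bool =>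
      wfs a d (QQ d J) q.1 q.2.1 q.2.2.1 q.2.2.2) Finset.univ
  have hmain : ∀ d : ℕ, ∀ᵐ ω ∂ν, ∀ ε : ℝ, 0 < ε → ∃ C : ℝ, ∀ J, ∀ w ∈ W d J,
      |∑ m ∈ Finset.Icc 1 (2 ^ J), w m * cm ω m| ≤ C * (2 : ℝ) ^ ((0 + ε) * J) * √(nn (2 ^ J) w) := by
    intro d
    refine hE ν 0 le_rfl zero_le_one ?_ (W d) ((3 + ((d : ℝ) + 1) ^ 2) * Real.log 2) ?_ ?_
    · intro ε hε
      rw [zero_add]
      exact hν ε hε
    · intro J w hw m hm
      obtain ⟨q, _, rfl⟩ := Finset.mem_image.1 hw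
      have h1 := q.2.1.2
      unfold wfs
      rw [if_neg (by omega)]
    · intro J
      have h1 : (W d J).card ≤ (2 ^ J + 1) * ((2 ^ J + 1) * ((QQ d J) ^ (d + 1) * 2)) := by
        refine Finset.card_image_le.trans ?_
        rw [Finset.card_univ, Fintype.card_prod, Fintype.card_prod, Fintype.card_prod, Fintype.card_fun]
        simp
      have h2 : (2 ^ J + 1) * ((2 ^ J + 1) * ((QQ d J) ^ (d + 1) * 2)) ≤ 2 ^ ((J + 1) * (3 + (d + 1) ^ 2)) := by
        have h3 : 2 ^ J + 1 ≤ 2 ^ (J + 1) := by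
          rw [pow_succ]
          have := Nat.one_le_two_pow (n := J)
          omega
        have h4 : (QQ d J) ^ (d + 1) * 2 = 2 ^ (J * (d + 1) * (d + 1) + 1) := by
          show (2 ^ (J * (d + 1))) ^ (d + 1) * 2 = _
          rw [← pow_mul, pow_succ]
        rw [h4]
        calc (2 ^ J + 1) * ((2 ^ J + 1) * 2 ^ (J * (d + 1) * (d + 1) + 1))
            ≤ 2 ^ (J + 1) * (2 ^ (J + 1) * 2 ^ (J * (d + 1) * (d + 1) + 1)) :=
              Nat.mul_le_mul h3 (Nat.mul_le_mul_right _ h3)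
          _ = 2 ^ (J + 1 + (J + 1 + (J * (d + 1) * (d + 1) + 1))) := by rw [← pow_add, ← pow_add]
          _ ≤ 2 ^ ((J + 1) * (3 + (d + 1) ^ 2)) := by
            refine Nat.pow_le_pow_right (by norm_num) ?_
            nlinarith [Nat.zero_le J, Nat.zero_le d]
      have h5 : ((W d J).card : ℝ) ≤ (2 : ℝ) ^ ((J + 1) * (3 + (d + 1) ^ 2)) := by
        exact_mod_cast h1.trans h2
      refine h5.trans (le_of_eq ?_)
      rw [← Real.rpow_natCast, Real.rpow_def_of_pos (by norm_num)]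
      congr 1
      push_cast
      ring
  rw [← ae_all_iff] at hmain
  filter_upwards [hmain] with ω hω d ε hε
  obtain ⟨C, hC⟩ := hω d (ε / 2) (by linarith)
  obtain ⟨K, hK⟩ : ∃ K : ℝ, K = 4 + 2 / (ε * Real.log 2) := ⟨_, rfl⟩
  have hl2 : 0 < Real.log 2 := Real.log_pos (by norm_num)
  have hK0 : 0 ≤ K := by
    rw [hK]
    positivity
  refine ⟨2 * Real.pi * (d + 1) + 2 * (|C| * √K * 2 ^ ε), fun M R F hMR hR hF => ?_⟩
  have hR1 : (1 : ℝ) ≤ R := by exact_mod_cast hR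
  have hR0 : (0 : ℝ) < R := by linarith
  have hMRr : (M : ℝ) ≤ R := by exact_mod_cast hMR
  have hRM : (0 : ℝ) ≤ (R : ℝ) - M := by linarith
  -- the scale
  obtain ⟨J, hJ1, hJ2⟩ : ∃ J : ℕ, R ≤ 2 ^ J ∧ 2 ^ J ≤ 2 * R := by
    refine ⟨Nat.clog 2 R, Nat.le_pow_clog (by norm_num) R, ?_⟩
    rcases Nat.lt_or_ge 1 R with h | h
    · have h1 := Nat.pow_pred_clog_lt_self (b := 2) (by norm_num) h
      have h2 : 0 < Nat.clog 2 R := Nat.clog_pos (by norm_num) h
      have h3 : 2 ^ Nat.clog 2 R = 2 * 2 ^ (Nat.clog 2 R).pred := by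
        rw [← pow_succ']
        congr 1
        rw [Nat.pred_eq_sub_one]
        omega
      omega
    · have : R = 1 := by omega
      subst this
      simp
  set Q : ℕ := QQ d J with hQdef
  have hQpos : 0 < Q := by
    show 0 < 2 ^ (J * (d + 1))
    positivity
  have hQr : (0 : ℝ) < Q := by exact_mod_cast hQpos
  -- the coefficients
  have hfl : ∀ k : ℕ, (⌊(Q : ℝ) * Int.fract (F.coeff k)⌋₊) < Q := by
    intro k
    rw [Nat.floor_lt (by have := Int.fract_nonneg (F.coeff k); positivity)]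
    have := Int.fract_lt_one (F.coeff k)
    nlinarith
  let b : Fin (d + 1) → Fin Q := fun k => ⟨⌊(Q : ℝ) * Int.fract (F.coeff k)⌋₊, hfl k⟩
  have hbk : ∀ k : Fin (d + 1), |Int.fract (F.coeff k) - ((b k : ℕ) : ℝ) / Q| ≤ 1 / Q := by
    intro k
    have h0 : 0 ≤ (Q : ℝ) * Int.fract (F.coeff k) := by
      have := Int.fract_nonneg (F.coeff k)
      positivity
    have h1 : (((b k : ℕ) : ℝ)) ≤ (Q : ℝ) * Int.fract (F.coeff k) := Nat.floor_le h0
    have h2 : (Q : ℝ) * Int.fract (F.coeff k) < ((b k : ℕ) : ℝ) + 1 := Nat.lt_floor_add_one _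
    rw [abs_le]
    constructor
    · have : 0 ≤ Int.fract (F.coeff k) - ((b k : ℕ) : ℝ) / Q := by
        rw [sub_nonneg, div_le_iff₀ hQr]
        linarith
      have h3 : 0 ≤ 1 / (Q : ℝ) := by positivity
      linarith
    · rw [sub_le_iff_le_add, ← add_div, le_div_iff₀ hQr]
      linarith
  have hR2J : (R : ℝ) ≤ 2 ^ J := by exact_mod_cast hJ1
  -- the phases are close
  have hphase : ∀ n ∈ Finset.Ioc M R,
      ‖ee (F.eval (n : ℝ)) - ee (phs d Q b n)‖ ≤ 2 * Real.pi * ((d + 1) / 2 ^ J) := by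
    intro n hn
    rw [Finset.mem_Ioc] at hn
    have hn1 : (1 : ℝ) ≤ n := by
      have : 1 ≤ n := by omega
      exact_mod_cast this
    have hnR : (n : ℝ) ≤ R := by exact_mod_cast hn.2
    have h1 : F.eval (n : ℝ) = ∑ k : Fin (d + 1), F.coeff k * (n : ℝ) ^ (k : ℕ) := by
      rw [Polynomial.eval_eq_sum_range' (Nat.lt_succ_of_le hF), Finset.sum_range]
    have h2 : F.eval (n : ℝ) = (phs d Q b n + ∑ k : Fin (d + 1),
        (Int.fract (F.coeff k) - ((b k : ℕ) : ℝ) / Q) * (n : ℝ) ^ (k : ℕ)) +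
        ((∑ k : Fin (d + 1), ⌊F.coeff k⌋ * (n : ℤ) ^ (k : ℕ) : ℤ) : ℝ) := by
      rw [h1]
      unfold phs
      push_cast
      rw [← Finset.sum_add_distrib, ← Finset.sum_add_distrib]
      refine Finset.sum_congr rfl fun k _ => ?_
      have := Int.floor_add_fract (F.coeff k)
      nth_rewrite 1 [← this]
      ring
    rw [h2, ee_add, ee_int, mul_one]
    refine (norm_ee_sub _ _).trans ?_
    refine mul_le_mul_of_nonneg_left ?_ (by positivity)
    refine (Finset.abs_sum_le_sum_abs _ _).trans ?_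
    have h3 : ∀ k ∈ (Finset.univ : Finset (Fin (d + 1))),
        |(Int.fract (F.coeff k) - ((b k : ℕ) : ℝ) / Q) * (n : ℝ) ^ (k : ℕ)| ≤ 1 / 2 ^ J := by
      intro k _
      rw [abs_mul, abs_of_nonneg (by positivity : (0 : ℝ) ≤ (n : ℝ) ^ (k : ℕ))]
      have h4 : (n : ℝ) ^ (k : ℕ) ≤ ((2 : ℝ) ^ J) ^ d := by
        calc (n : ℝ) ^ (k : ℕ) ≤ ((2 : ℝ) ^ J) ^ (k : ℕ) :=
              pow_le_pow_left₀ (by linarith) (hnR.trans hR2J) _
          _ ≤ ((2 : ℝ) ^ J) ^ d := pow_le_pow_right₀ (one_le_pow₀ (by norm_num)) (by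
              have := k.2
              omega)
      have h5 : (Q : ℝ) = (2 ^ J) ^ d * 2 ^ J := by
        have : Q = (2 ^ J) ^ d * 2 ^ J := by
          show 2 ^ (J * (d + 1)) = _
          rw [← pow_succ, ← pow_mul]
        rw [this]
        push_cast
        ring
      calc |Int.fract (F.coeff k) - ((b k : ℕ) : ℝ) / Q| * (n : ℝ) ^ (k : ℕ)
          ≤ 1 / Q * ((2 : ℝ) ^ J) ^ d := by
            refine mul_le_mul (hbk k) h4 (by positivity) (by positivity)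
        _ = 1 / 2 ^ J := by
            rw [h5]
            field_simp
    refine (Finset.sum_le_sum h3).trans (le_of_eq ?_)
    rw [Finset.sum_const, Finset.card_univ, Fintype.card_fin, nsmul_eq_mul]
    push_cast
    ring
  -- the two sums
  have hsplit : ∑ n ∈ Finset.Ioc M R, ((a n * cm ω n : ℝ) : ℂ) * ee (phs d Q b n) =
      ((∑ n ∈ Finset.Ioc M R, wfs a d Q M R b true n * cm ω n : ℝ) : ℂ) +
        ((∑ n ∈ Finset.Ioc M R, wfs a d Q M R b false n * cm ω n : ℝ) : ℂ) * Complex.I := by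
    push_cast
    rw [Finset.sum_mul, ← Finset.sum_add_distrib]
    refine Finset.sum_congr rfl fun n hn => ?_
    rw [Finset.mem_Ioc] at hn
    rw [ee_eq]
    unfold wfs
    rw [if_pos hn, if_pos hn]
    simp only [if_true, Bool.false_eq_true, if_false]
    push_cast
    ring
  have hsum : ∀ t : Bool, ∑ n ∈ Finset.Icc 1 (2 ^ J), wfs a d Q M R b t n * cm ω n =
      ∑ n ∈ Finset.Ioc M R, wfs a d Q M R b t n * cm ω n := by
    intro t
    symm
    refine Finset.sum_subset ?_ ?_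
    · intro n hn
      rw [Finset.mem_Ioc] at hn
      rw [Finset.mem_Icc]
      omega
    · intro n _ hn
      rw [Finset.mem_Ioc] at hn
      have : wfs a d Q M R b t n = 0 := by
        unfold wfs
        rw [if_neg hn]
      rw [this, zero_mul]
  have hbound : ∀ t : Bool, |∑ n ∈ Finset.Ioc M R, wfs a d Q M R b t n * cm ω n| ≤
      |C| * √K * 2 ^ ε * ((R : ℝ) ^ ε * √((R : ℝ) - M)) := by
    intro t
    have hmem : wfs a d Q M R b t ∈ W d J := by
      refine Finset.mem_image.2 ⟨(⟨M, by omega⟩, ⟨R, by omega⟩, b, t), Finset.mem_univ _, rfl⟩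
    have h1 := hC J _ hmem
    rw [hsum t, zero_add] at h1
    refine h1.trans ?_
    have h2 : (2 : ℝ) ^ (ε * J) ≤ 2 ^ ε * (R : ℝ) ^ ε := by
      rw [← Real.mul_rpow (by norm_num) hR0.le, mul_comm ε, Real.rpow_mul (by norm_num),
        Real.rpow_natCast]
      refine Real.rpow_le_rpow (by positivity) ?_ hε.le
      exact_mod_cast hJ2
    have h3 : nn (2 ^ J) (wfs a d Q M R b t) ≤ ((R : ℝ) - M) * (K * (2 : ℝ) ^ (ε * J)) := by
      refine (nn_two J M R hMR _ (abs_wfs a ha d Q M R b t) ?_).trans (mul_le_mul_of_nonneg_left ?_ hRM)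
      · intro m hm
        unfold wfs
        rw [if_neg hm]
      · rw [hK]
        exact lin_le ε hε J
    have h4 : √(nn (2 ^ J) (wfs a d Q M R b t)) ≤ √((R : ℝ) - M) * (√K * (2 : ℝ) ^ (ε / 2 * J)) := by
      refine (Real.sqrt_le_sqrt h3).trans (le_of_eq ?_)
      rw [Real.sqrt_mul hRM, Real.sqrt_mul hK0]
      congr 2
      have h5 : (2 : ℝ) ^ (ε * J) = ((2 : ℝ) ^ (ε / 2 * J)) ^ 2 := by
        rw [← Real.rpow_natCast, ← Real.rpow_mul (by norm_num)]
        congr 1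
        push_cast
        ring
      rw [h5, Real.sqrt_sq (by positivity)]
    calc C * (2 : ℝ) ^ (ε / 2 * J) * √(nn (2 ^ J) (wfs a d Q M R b t))
        ≤ |C| * (2 : ℝ) ^ (ε / 2 * J) * (√((R : ℝ) - M) * (√K * (2 : ℝ) ^ (ε / 2 * J))) := by
          refine mul_le_mul (mul_le_mul_of_nonneg_right (le_abs_self C) (by positivity)) h4
            (Real.sqrt_nonneg _) (by positivity)
      _ = |C| * √K * √((R : ℝ) - M) * (2 : ℝ) ^ (ε * J) := by
          have h5 : (2 : ℝ) ^ (ε * J) = (2 : ℝ) ^ (ε / 2 * J) * (2 : ℝ) ^ (ε / 2 * J) := by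
            rw [← Real.rpow_add (by norm_num)]
            congr 1
            ring
          rw [h5]
          ring
      _ ≤ |C| * √K * √((R : ℝ) - M) * (2 ^ ε * (R : ℝ) ^ ε) :=
          mul_le_mul_of_nonneg_left h2 (by positivity)
      _ = |C| * √K * 2 ^ ε * ((R : ℝ) ^ ε * √((R : ℝ) - M)) := by ring
  have hsq : ((R : ℝ) - M) / 2 ^ J ≤ √((R : ℝ) - M) := by
    rw [div_le_iff₀ (by positivity)]
    have h1 : √((R : ℝ) - M) ≤ 2 ^ J := by
      rw [Real.sqrt_le_left (by positivity)]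
      have h2 : (1 : ℝ) ≤ 2 ^ J := one_le_pow₀ (by norm_num)
      have hM0 : (0 : ℝ) ≤ M := Nat.cast_nonneg M
      nlinarith
    calc (R : ℝ) - M = √((R : ℝ) - M) * √((R : ℝ) - M) := (Real.mul_self_sqrt hRM).symm
      _ ≤ √((R : ℝ) - M) * 2 ^ J := mul_le_mul_of_nonneg_left h1 (Real.sqrt_nonneg _)
  have hnear : ‖∑ n ∈ Finset.Ioc M R, ((a n * cm ω n : ℝ) : ℂ) * ee (F.eval (n : ℝ)) -
      ∑ n ∈ Finset.Ioc M R, ((a n * cm ω n : ℝ) : ℂ) * ee (phs d Q b n)‖ ≤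
        2 * Real.pi * (d + 1) * √((R : ℝ) - M) := by
    rw [← Finset.sum_sub_distrib]
    have h1 : ∀ n ∈ Finset.Ioc M R, ‖((a n * cm ω n : ℝ) : ℂ) * ee (F.eval (n : ℝ)) -
        ((a n * cm ω n : ℝ) : ℂ) * ee (phs d Q b n)‖ ≤ 2 * Real.pi * ((d + 1) / 2 ^ J) := by
      intro n hn
      rw [← mul_sub, norm_mul]
      have h2 : ‖((a n * cm ω n : ℝ) : ℂ)‖ ≤ 1 := by
        rw [Complex.norm_real, Real.norm_eq_abs, abs_mul, abs_cm, mul_one]
        exact ha n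
      calc ‖((a n * cm ω n : ℝ) : ℂ)‖ * ‖ee (F.eval (n : ℝ)) - ee (phs d Q b n)‖
          ≤ 1 * ‖ee (F.eval (n : ℝ)) - ee (phs d Q b n)‖ :=
            mul_le_mul_of_nonneg_right h2 (norm_nonneg _)
        _ ≤ _ := by
            rw [one_mul]
            exact hphase n hn
    refine (norm_sum_le_of_le _ h1).trans ?_
    rw [Finset.sum_const, Nat.card_Ioc, nsmul_eq_mul, Nat.cast_sub hMR]
    have h3 : ((R : ℝ) - M) * (2 * Real.pi * ((d + 1) / 2 ^ J)) =
        2 * Real.pi * (d + 1) * (((R : ℝ) - M) / 2 ^ J) := by ring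
    rw [h3]
    exact mul_le_mul_of_nonneg_left hsq (by positivity)
  have hRp : (1 : ℝ) ≤ (R : ℝ) ^ ε := Real.one_le_rpow hR1 hε.le
  have hfin : ‖∑ n ∈ Finset.Ioc M R, ((a n * cm ω n : ℝ) : ℂ) * ee (phs d Q b n)‖ ≤
      2 * (|C| * √K * 2 ^ ε * ((R : ℝ) ^ ε * √((R : ℝ) - M))) := by
    rw [hsplit]
    refine (norm_add_le _ _).trans ?_
    rw [norm_mul, Complex.norm_I, mul_one, Complex.norm_real, Complex.norm_real,
      Real.norm_eq_abs, Real.norm_eq_abs]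
    linarith [hbound true, hbound false]
  calc ‖∑ n ∈ Finset.Ioc M R, ((a n * cm ω n : ℝ) : ℂ) * ee (F.eval (n : ℝ))‖
      ≤ ‖∑ n ∈ Finset.Ioc M R, ((a n * cm ω n : ℝ) : ℂ) * ee (F.eval (n : ℝ)) -
          ∑ n ∈ Finset.Ioc M R, ((a n * cm ω n : ℝ) : ℂ) * ee (phs d Q b n)‖ +
        ‖∑ n ∈ Finset.Ioc M R, ((a n * cm ω n : ℝ) : ℂ) * ee (phs d Q b n)‖ :=
          norm_le_norm_sub_add _ _
    _ ≤ 2 * Real.pi * (d + 1) * √((R : ℝ) - M) +
        2 * (|C| * √K * 2 ^ ε * ((R : ℝ) ^ ε * √((R : ℝ) - M))) :=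
          add_le_add hnear hfin
    _ ≤ 2 * Real.pi * (d + 1) * ((R : ℝ) ^ ε * √((R : ℝ) - M)) +
          2 * (|C| * √K * 2 ^ ε * ((R : ℝ) ^ ε * √((R : ℝ) - M))) := by
          have h1 : √((R : ℝ) - M) ≤ (R : ℝ) ^ ε * √((R : ℝ) - M) :=
            le_mul_of_one_le_left (Real.sqrt_nonneg _) hRp
          have h2 := mul_le_mul_of_nonneg_left h1 (by positivity : (0 : ℝ) ≤ 2 * Real.pi * ((d : ℝ) + 1))
          linarith
    _ = (2 * Real.pi * (d + 1) + 2 * (|C| * √K * 2 ^ ε)) * (R : ℝ) ^ ε * √((R : ℝ) - M) := by ring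

end Pool.Agent.Q275.L2
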